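import Pool.Agent.Helper73.MI.Stmts

/-!
# Geometry of the fibres (project MP_a2630c_MI, module GEO)
-/

open MeasureTheory Set Metric Real Filter Topology
open scoped RealInnerProductSpace ENNReal
open Pool.Agent.Helper16.Buoy (E cap IsEllipsoid Homothetic buoyancyBody)
open Pool.Agent.Helper73.HV (supp)
open Pool.Agent.Helper73.LR (CB vol GG Sol aff)
open Pool.Agent.Helper73.SY (CS Dat sg)
open Pool.Agent.Helper79.SY (WW AA cut)

namespace Pool.Agent.Helper93.MI

open Pool.Agent.Helper73.MI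

variable {n : ℕ} {K : Set (E n)} {e : E n}

/-- The fibre over `y`. -/
def Fib (K : Set (E n)) (e : E n) (y : WW e) : Set ℝ := {s | s • e + (y : E n) ∈ K}

theorem mem_Fib {y : WW e} {s : ℝ} : s ∈ Fib K e y ↔ s • e + (y : E n) ∈ K := Iff.rfl

theorem RR_eq (K : Set (E n)) (e : E n) (y : WW e) : RR K e y = sSup (Fib K e y) := rfl

theorem decomp (he : ‖e‖ = 1) (x : E n) : ∃ (s : ℝ) (y : WW e), s • e + (y : E n) = x := by
  refine ⟨inner ℝ e x, ⟨x - (inner ℝ e x : ℝ) • e, ?_⟩, ?_⟩
  · rw [Submodule.mem_orthogonal_singleton_iff_inner_right, inner_sub_right, inner_smul_right,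
      real_inner_self_eq_norm_sq, he]
    ring
  · simp

theorem sg_sl (he : ‖e‖ = 1) (s : ℝ) (y : WW e) :
    sg e (s • e + (y : E n)) = (-s) • e + (y : E n) := by
  unfold sg
  rw [inner_add_right, inner_smul_right, Pool.Agent.Helper79.SY.inner_e_W,
    real_inner_self_eq_norm_sq, he]
  module

theorem fib_symm (he : ‖e‖ = 1) (hs : sg e '' K = K) {s : ℝ} {y : WW e}
    (h : s ∈ Fib K e y) : -s ∈ Fib K e y := by
  have h1 := mem_image_of_mem (sg e) (mem_Fib.1 h)
  rw [hs, sg_sl he] at h1
  exact h1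

theorem combo (a b s s' : ℝ) (y y' : WW e) :
    (a * s + b * s') • e + ((a • y + b • y' : WW e) : E n) =
      a • (s • e + (y : E n)) + b • (s' • e + (y' : E n)) := by
  rw [Submodule.coe_add, Submodule.coe_smul, Submodule.coe_smul]
  module

theorem combo_self {a b : ℝ} (hab : a + b = 1) (y : WW e) : a • y + b • y = y := by
  rw [← add_smul, hab, one_smul]

theorem fib_closed (hK : IsCompact K) (y : WW e) : IsClosed (Fib K e y) :=
  hK.isClosed.preimage (by fun_prop : Continuous fun s : ℝ => s • e + (y : E n))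

theorem fib_sub (hK : IsCompact K) (he : ‖e‖ = 1) : ∃ R : ℝ, ∀ y : WW e,
    (Fib K e y ⊆ Icc (-R) R) ∧ ((Fib K e y).Nonempty → ‖y‖ ≤ R) := by
  obtain ⟨R, hR⟩ := hK.isBounded.exists_norm_le
  refine ⟨R, fun y => ⟨fun s hs => ?_, ?_⟩⟩
  · have h1 := (Pool.Agent.Helper79.SY.abs_le_sl he y s).trans (hR _ hs)
    exact abs_le.1 h1
  · rintro ⟨s, hs⟩
    exact (Pool.Agent.Helper79.SY.norm_le_sl he y s).trans (hR _ hs)

theorem fib_comp (hK : IsCompact K) (he : ‖e‖ = 1) (y : WW e) : IsCompact (Fib K e y) := by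
  obtain ⟨R, hR⟩ := fib_sub hK he
  exact isCompact_Icc.of_isClosed_subset (fib_closed hK y) (hR y).1

theorem fib_conv (hK : Convex ℝ K) (y : WW e) : Convex ℝ (Fib K e y) := by
  intro s hs s' hs' a b ha hb hab
  have h1 := hK (mem_Fib.1 hs) (mem_Fib.1 hs') ha hb hab
  rw [← combo, combo_self hab] at h1
  exact h1

theorem RR_mem (hK : IsCompact K) (he : ‖e‖ = 1) {y : WW e} (h : (Fib K e y).Nonempty) :
    RR K e y ∈ Fib K e y := (fib_comp hK he y).sSup_mem h

theorem le_RR (hK : IsCompact K) (he : ‖e‖ = 1) {y : WW e} {s : ℝ} (h : s ∈ Fib K e y) :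
    s ≤ RR K e y := le_csSup (fib_comp hK he y).bddAbove h

theorem RR_nonneg (hK : IsCompact K) (he : ‖e‖ = 1) (hs : sg e '' K = K) (y : WW e) :
    0 ≤ RR K e y := by
  rcases (Fib K e y).eq_empty_or_nonempty with h | ⟨s, h⟩
  · rw [RR_eq, h, Real.sSup_empty]
  · have h1 := le_RR hK he h
    have h2 := le_RR hK he (fib_symm he hs h)
    linarith

theorem mem_fib_iff (hK : CB K) (he : ‖e‖ = 1) (hs : sg e '' K = K) (y : WW e) (s : ℝ) :
    s ∈ Fib K e y ↔ (Fib K e y).Nonempty ∧ s ^ 2 ≤ FF K e y := by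
  have h0 := RR_nonneg hK.comp he hs y
  constructor
  · intro h
    refine ⟨⟨s, h⟩, ?_⟩
    unfold FF
    have h1 := le_RR hK.comp he h
    have h2 := le_RR hK.comp he (fib_symm he hs h)
    exact sq_le_sq' (by linarith) h1
  · rintro ⟨hne, h⟩
    have h1 := abs_le_of_sq_le_sq' h h0
    have h2 := RR_mem hK.comp he hne
    exact (fib_conv hK.conv y).ordConnected.out (fib_symm he hs h2) h2 ⟨h1.1, h1.2⟩

theorem int_proj {y : WW e} {s : ℝ} (h : s • e + (y : E n) ∈ interior K) : y ∈ PD K e := by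
  have ho : IsOpen {y' : WW e | s • e + (y' : E n) ∈ interior K} :=
    isOpen_interior.preimage (by fun_prop : Continuous fun y' : WW e => s • e + (y' : E n))
  exact mem_interior.2 ⟨_, fun y' hy' => ⟨s, interior_subset hy'⟩, ho, h⟩

theorem int_lt (hK : IsCompact K) (he : ‖e‖ = 1) (hs : sg e '' K = K) {y : WW e} {s : ℝ}
    (h : s • e + (y : E n) ∈ interior K) : |s| < RR K e y := by
  have ho : IsOpen {s' : ℝ | s' • e + (y : E n) ∈ interior K} :=
    isOpen_interior.preimage (by fun_prop : Continuous fun s' : ℝ => s' • e + (y : E n))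
  obtain ⟨ε, hε, hb⟩ := Metric.isOpen_iff.1 ho s h
  have h1 : s + ε / 2 ∈ Fib K e y := by
    have : s + ε / 2 ∈ ball s ε := by
      rw [mem_ball, Real.dist_eq, add_sub_cancel_left, abs_of_pos (by linarith)]
      linarith
    exact mem_Fib.2 (interior_subset (s := K) (hb this))
  have h2 : s - ε / 2 ∈ Fib K e y := by
    have : s - ε / 2 ∈ ball s ε := by
      rw [mem_ball, Real.dist_eq, sub_sub_cancel_left, abs_neg, abs_of_pos (by linarith)]
      linarith
    exact mem_Fib.2 (interior_subset (s := K) (hb this))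
  have h3 := le_RR hK he h1
  have h4 := le_RR hK he (fib_symm he hs h2)
  rw [abs_lt]
  constructor <;> linarith

theorem exists_int (hK : CB K) (he : ‖e‖ = 1) {y : WW e} (hy : y ∈ PD K e) :
    ∃ s : ℝ, s • e + (y : E n) ∈ interior K := by
  obtain ⟨p0, hp0⟩ := hK.int
  obtain ⟨s0, y0, rfl⟩ := decomp he p0
  have hc : Continuous fun θ : ℝ => y + θ • (y - y0) := by fun_prop
  have ho : IsOpen ((fun θ : ℝ => y + θ • (y - y0)) ⁻¹' PD K e) := isOpen_interior.preimage hc
  obtain ⟨ε, hε, hb⟩ := Metric.isOpen_iff.1 ho 0 (by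
    show y + (0 : ℝ) • (y - y0) ∈ PD K e
    rw [zero_smul, add_zero]; exact hy)
  have h1 : ε / 2 ∈ ball (0 : ℝ) ε := by
    rw [mem_ball, Real.dist_eq, sub_zero, abs_of_pos (by linarith)]
    linarith
  have h2 : y + (ε / 2) • (y - y0) ∈ PD K e := hb h1
  obtain ⟨s1, hs1⟩ := interior_subset h2
  set θ := ε / 2 with hθ
  have hθ0 : 0 < θ := by positivity
  have h3 := hK.conv.combo_interior_self_mem_interior hp0 hs1 (a := θ / (1 + θ))
    (b := 1 / (1 + θ)) (by positivity) (by positivity) (by field_simp; ring)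
  rw [← combo] at h3
  refine ⟨θ / (1 + θ) * s0 + 1 / (1 + θ) * s1, ?_⟩
  have h4 : (θ / (1 + θ)) • y0 + (1 / (1 + θ)) • (y + θ • (y - y0)) = y := by
    rw [smul_add, smul_smul, smul_sub]
    have : (1 / (1 + θ)) • y + ((1 / (1 + θ) * θ) • y) = y := by
      rw [← add_smul]
      have : 1 / (1 + θ) + 1 / (1 + θ) * θ = 1 := by field_simp
      rw [this, one_smul]
    have h5 : (1 / (1 + θ) * θ) = θ / (1 + θ) := by ring
    rw [h5] at this ⊢
    calc (θ / (1 + θ)) • y0 + ((1 / (1 + θ)) • y + ((θ / (1 + θ)) • y - (θ / (1 + θ)) • y0))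
        = (1 / (1 + θ)) • y + (θ / (1 + θ)) • y := by abel
      _ = y := this
  rw [h4] at h3
  exact h3

theorem mem_int_of (hK : CB K) (he : ‖e‖ = 1) (hs : sg e '' K = K) {y : WW e} {s : ℝ}
    (hy : y ∈ PD K e) (h : s ^ 2 < FF K e y) : s • e + (y : E n) ∈ interior K := by
  obtain ⟨s0, hs0⟩ := exists_int hK he hy
  have h0 := abs_lt.1 (int_lt hK.comp he hs hs0)
  have hR0 := RR_nonneg hK.comp he hs y
  have h1 := abs_lt_of_sq_lt_sq' h hR0
  have hmem := RR_mem hK.comp he (y := y) ⟨s0, mem_Fib.2 (interior_subset (s := K) hs0)⟩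
  have hmem' := fib_symm he hs hmem
  set R := RR K e y with hR
  rcases le_total s0 s with hle | hle
  · have hd : 0 < R - s0 := by linarith
    have h3 := hK.conv.combo_interior_self_mem_interior hs0 (mem_Fib.1 hmem)
      (a := (R - s) / (R - s0)) (b := (s - s0) / (R - s0)) (div_pos (by linarith) hd)
      (div_nonneg (by linarith) hd.le) (by field_simp; ring)
    rw [← combo, combo_self (by field_simp; ring)] at h3
    have h4 : (R - s) / (R - s0) * s0 + (s - s0) / (R - s0) * R = s := by field_simp; ring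
    rw [h4] at h3
    exact h3
  · have hd : 0 < R + s0 := by linarith
    have h3 := hK.conv.combo_interior_self_mem_interior hs0 (mem_Fib.1 hmem')
      (a := (R + s) / (R + s0)) (b := (s0 - s) / (R + s0)) (div_pos (by linarith) hd)
      (div_nonneg (by linarith) hd.le) (by field_simp; ring)
    rw [← combo, combo_self (by field_simp; ring)] at h3
    have h4 : (R + s) / (R + s0) * s0 + (s0 - s) / (R + s0) * (-R) = s := by field_simp; ring
    rw [h4] at h3
    exact h3

theorem proj_conv (hK : Convex ℝ K) : Convex ℝ {y : WW e | ∃ s : ℝ, s • e + (y : E n) ∈ K} := by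
  rintro y ⟨s, hs⟩ y' ⟨s', hs'⟩ a b ha hb hab
  refine ⟨a * s + b * s', ?_⟩
  rw [combo]
  exact hK hs hs' ha hb hab

theorem pd_conv (hK : Convex ℝ K) : Convex ℝ (PD K e) := (proj_conv hK).interior

theorem pd_bdd (hK : IsCompact K) (he : ‖e‖ = 1) : Bornology.IsBounded (PD K e) := by
  obtain ⟨R, hR⟩ := fib_sub hK he
  refine isBounded_closedBall.subset (t := closedBall (0 : WW e) R) fun y hy => ?_
  obtain ⟨s, hs⟩ := interior_subset hy
  rw [mem_closedBall_zero_iff]
  exact (hR y).2 ⟨s, hs⟩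

/-- Outside the interior of the projection the fibre is a point of height zero, or empty. -/
theorem fib_out {δ lam : ℝ} {X : E n → E n} {t : E n → ℝ} (hD : Dat K δ lam X t) (he : ‖e‖ = 1)
    (hs : sg e '' K = K) {y : WW e} (hy : y ∉ PD K e) : RR K e y = 0 := by
  have hK := hD.cs.cb
  rcases (Fib K e y).eq_empty_or_nonempty with h | hne
  · rw [RR_eq, h, Real.sSup_empty]
  set O : Set (WW e) := {y' | ∃ s : ℝ, s • e + (y' : E n) ∈ interior K} with hO
  have hOo : IsOpen O := by
    have : O = ⋃ s : ℝ, {y' : WW e | s • e + (y' : E n) ∈ interior K} := by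
      ext y'; simp [hO]
    rw [this]
    exact isOpen_iUnion fun s =>
      isOpen_interior.preimage (by fun_prop : Continuous fun y' : WW e => s • e + (y' : E n))
  have hOc : Convex ℝ O := proj_conv hK.conv.interior
  have hyO : y ∉ O := fun ⟨s, h⟩ => hy (int_proj h)
  obtain ⟨f, hf⟩ := geometric_hahn_banach_open_point hOc hOo hyO
  obtain ⟨p0, hp0⟩ := hK.int
  obtain ⟨s0, y0, rfl⟩ := decomp he p0
  set v : WW e := (InnerProductSpace.toDual ℝ (WW e)).symm f with hv
  have hfv : ∀ w : WW e, f w = inner ℝ (v : E n) (w : E n) := by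
    intro w
    rw [← Submodule.coe_inner, hv, InnerProductSpace.toDual_symm_apply]
  have hv0 : (v : E n) ≠ 0 := by
    intro h0
    have := hf y0 ⟨s0, hp0⟩
    rw [hfv, hfv, h0, inner_zero_left, inner_zero_left] at this
    exact lt_irrefl _ this
  have hve : ∀ (s : ℝ) (w : WW e), inner ℝ (v : E n) (s • e + (w : E n)) =
      (inner ℝ (v : E n) (w : E n) : ℝ) := by
    intro s w
    rw [inner_add_right, inner_smul_right, real_inner_comm,
      Pool.Agent.Helper79.SY.inner_e_W, mul_zero, zero_add]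
  have hlt : ∀ x ∈ interior K, (inner ℝ (v : E n) x : ℝ) < inner ℝ (v : E n) (y : E n) := by
    intro x hx
    obtain ⟨s, w, rfl⟩ := decomp he x
    rw [hve, ← hfv, ← hfv]
    exact hf w ⟨s, hx⟩
  have hle : ∀ x ∈ K, (inner ℝ (v : E n) x : ℝ) ≤ inner ℝ (v : E n) (y : E n) := by
    intro x hx
    rw [← Pool.Agent.Helper79.SY.closure_int hK] at hx
    have hc : IsClosed {x : E n | (inner ℝ (v : E n) x : ℝ) ≤ inner ℝ (v : E n) (y : E n)} :=
      isClosed_le (by fun_prop) continuous_const
    exact closure_minimal (fun x hx => (hlt x hx).le) hc hx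
  have hsup : ∀ s ∈ Fib K e y, s • e + (y : E n) = X v := by
    intro s hs'
    apply hD.Xuni v hv0 _ hs'
    apply le_antisymm
    · exact Pool.Agent.Helper65.LR.le_supp hK.comp hs' _
    · obtain ⟨x1, hx1, hx1u⟩ := (Pool.Agent.Helper65.LR.supp_greatest hK.comp
        (hK.int.mono interior_subset) (v : E n)).1
      have hx1u' : inner ℝ (v : E n) x1 = supp K (v : E n) := hx1u
      rw [← hx1u', hve]
      exact hle x1 hx1
  have hR := RR_mem hK.comp he hne
  have h1 := hsup _ hR
  have h2 := hsup _ (fib_symm he hs hR)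
  have h3 : RR K e y • e = (-RR K e y) • e := add_right_cancel (h1.trans h2.symm)
  have he0 : e ≠ 0 := by
    intro h0
    rw [h0, norm_zero] at he
    exact zero_ne_one he
  have h4 := smul_left_injective ℝ he0 h3
  have h5 : RR K e y = -RR K e y := h4
  linarith

theorem rr_conc (hK : CB K) (he : ‖e‖ = 1) : ConcaveOn ℝ (PD K e) (RR K e) := by
  refine ⟨pd_conv hK.conv, fun y hy y' hy' a b ha hb hab => ?_⟩
  have h1 := RR_mem hK.comp he (y := y) (by
    obtain ⟨s, h⟩ := interior_subset hy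
    exact ⟨s, h⟩)
  have h2 := RR_mem hK.comp he (y := y') (by
    obtain ⟨s, h⟩ := interior_subset hy'
    exact ⟨s, h⟩)
  have h3 := hK.conv (mem_Fib.1 h1) (mem_Fib.1 h2) ha hb hab
  rw [← combo] at h3
  exact le_RR hK.comp he h3

theorem ff_cont {δ lam : ℝ} {X : E n → E n} {t : E n → ℝ} (hD : Dat K δ lam X t) (he : ‖e‖ = 1)
    (hs : sg e '' K = K) : Continuous (FF K e) := by
  have hK := hD.cs.cb
  rw [continuous_iff_continuousAt]
  intro y0
  by_cases hy0 : y0 ∈ PD K e
  · have h1 := (rr_conc hK he).continuousOn isOpen_interior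
    exact (h1.continuousAt (isOpen_interior.mem_nhds hy0)).pow 2
  · have h0 : FF K e y0 = 0 := by
      unfold FF
      rw [fib_out hD he hs hy0]
      norm_num
    rw [ContinuousAt, h0, Metric.tendsto_nhds]
    intro ε hε
    have hcl : IsClosed {y : WW e | √ε • e + (y : E n) ∈ K} :=
      hK.comp.isClosed.preimage (by fun_prop : Continuous fun y : WW e => √ε • e + (y : E n))
    have hy0' : y0 ∈ {y : WW e | √ε • e + (y : E n) ∈ K}ᶜ := by
      intro h
      have := ((mem_fib_iff hK he hs y0 (√ε)).1 h).2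
      rw [h0, Real.sq_sqrt hε.le] at this
      linarith
    filter_upwards [hcl.isOpen_compl.mem_nhds hy0'] with y hy
    have h2 : FF K e y < ε := by
      by_contra hc
      push Not at hc
      apply hy
      have hne : (Fib K e y).Nonempty := by
        by_contra hne
        rw [Set.not_nonempty_iff_eq_empty] at hne
        have : FF K e y = 0 := by
          unfold FF
          rw [RR_eq, hne, Real.sSup_empty]
          norm_num
        linarith
      exact (mem_fib_iff hK he hs y (√ε)).2 ⟨hne, by rw [Real.sq_sqrt hε.le]; exact hc⟩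
    rw [Real.dist_eq, sub_zero, abs_of_nonneg (sq_nonneg _)]
    exact h2

/-- Module GEO. -/
theorem geo : S_geo := by
  intro n K δ lam X t e hD he hs
  have hK := hD.cs.cb
  refine ⟨fun s y => mem_fib_iff hK he hs y s, fun s y => ⟨fun h => ⟨int_proj h, ?_⟩, fun h =>
    mem_int_of hK he hs h.1 h.2⟩, RR_nonneg hK.comp he hs, pd_conv hK.conv, pd_bdd hK.comp he,
    ff_cont hD he hs, fun y hy => ?_, fun y hy => ?_, rr_conc hK he⟩
  · have h1 := int_lt hK.comp he hs h
    unfold FF
    rw [← sq_abs]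
    exact pow_lt_pow_left₀ h1 (abs_nonneg _) two_ne_zero
  · obtain ⟨s, h⟩ := exists_int hK he hy
    have h1 := int_lt hK.comp he hs h
    unfold FF
    have : 0 < RR K e y := (abs_nonneg _).trans_lt h1
    positivity
  · unfold FF
    rw [fib_out hD he hs hy]
    norm_num

end Pool.Agent.Helper93.MI
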